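import Mathlib
import Pool.Agent.H14.Door

set_option autoImplicit false

namespace Pool.Agent.Results.MP_d572aa_gt.Door

open MeasureTheory in
theorem result : ∃ (K : Set (Fin 3 → ℝ)) (D : Set (ℝ × ℝ)),
    IsCompact K ∧ Convex ℝ K ∧ (interior K).Nonempty ∧
    IsCompact D ∧ Convex ℝ D ∧ (interior D).Nonempty ∧
    (∃ (R : ℝ → Matrix (Fin 3) (Fin 3) ℝ) (b : ℝ → Fin 3 → ℝ),
      ContinuousOn R (Set.Icc 0 1) ∧ ContinuousOn b (Set.Icc 0 1) ∧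
      (∀ t ∈ Set.Icc (0 : ℝ) 1, R t ∈ Matrix.specialOrthogonalGroup (Fin 3) ℝ) ∧
      (∀ p ∈ K, 0 < ((R 0).mulVec p + b 0) 2) ∧ (∀ p ∈ K, ((R 1).mulVec p + b 1) 2 < 0) ∧
      ∀ t ∈ Set.Icc (0 : ℝ) 1, ∀ p ∈ K, ((R t).mulVec p + b t) 2 = 0 →
        (((R t).mulVec p + b t) 0, ((R t).mulVec p + b t) 1) ∈ D) ∧
    volume D < ENNReal.ofReal (192 / 100) ∧
    ∀ e f : Fin 3 → ℝ, e ⬝ᵥ e = 1 → f ⬝ᵥ f = 1 → e ⬝ᵥ f = 0 →
      ENNReal.ofReal (192 / 100) ≤ volume ((fun x => (x ⬝ᵥ e, x ⬝ᵥ f)) '' K) :=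
  open Pool.Agent.H14.Door in
  ⟨K, D, K_compact, K_convex, K_int, D_compact, D_convex, D_int, ⟨R, b, R_cont.continuousOn,
    b_cont.continuousOn, fun t _ => R_mem t, start, stop, fun t _ => pass t⟩, D_vol, proj_vol⟩

end Pool.Agent.Results.MP_d572aa_gt.Door
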